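import Pool.Agent.Helper33.QB.Defs
import Pool.Agent.Helper61.QB.Order
import Pool.Agent.Helper63.QB.Union
import Pool.Agent.Helper55.QB.Res
import Pool.Agent.Helper15.QB.VUnion

/-!
# Project QB, F3c: diagonal unions
-/

set_option autoImplicit false

namespace Pool.Agent.Helper33.QB

open Set

universe v

variable {Ω : Type} {I : Type v} {α : Ordinal.{0}}

section F3

variable [LinearOrder I] {p q r s : Cnd Ω I} {pn : ℕ → Cnd Ω I} {b : I → NmD Ω I} {i j k : I}

variable [WellFoundedLT I]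

open Classical in
/-- Diagonal unions: `q n` has letters below `i n`, and `q (n+1)`, restricted to the letters below
`i n`, is below `q n`. -/
theorem V.diag {qn : ℕ → Cnd Ω I} {il : ℕ → I} (him : Monotone il) (hi : ∀ n, il n ≤ i)
    (hV : ∀ n, qn n ∈ V α b (il n)) (hle : ∀ n, Le (res (qn (n + 1)) (il n)) (qn n)) :
    ∃ q ∈ V α b i, q.Y = ⋃ n, (qn n).Y ∧ q.S = ⋃ n, (qn n).S ∧
      (∀ K, K ∈ q.R ↔ ∃ n, K ∈ (qn n).R) ∧ (∀ n, Le (res q (il n)) (qn n)) := by
  -- monotonicity of the carriers, rings, letters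
  have hYm : ∀ n, (qn n).Y ⊆ (qn (n + 1)).Y := fun n => (hle n).cp.sub
  have hYm' : Monotone fun n => (qn n).Y := monotone_nat_of_le_succ hYm
  have hSm : ∀ n, (qn n).S ⊆ (qn (n + 1)).S := fun n x hx => ((hle n).S hx).1
  have hSm' : Monotone fun n => (qn n).S := monotone_nat_of_le_succ hSm
  have hRm : ∀ n, (qn n).R ⊆ (qn (n + 1)).R := fun n K hK => (((hle n).cp.ring K).1 hK).1
  have hRm' : Monotone fun n => (qn n).R := monotone_nat_of_le_succ hRm
  -- the unions of the restricted sequences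
  have hPV : ∀ n m, QB.res (qn (n + m)) (il n) ∈ V α b (il n) := fun n m =>
    V.res_mem (hV (n + m)) (il n)
  have hPle : ∀ n m, Le (QB.res (qn (n + (m + 1))) (il n)) (QB.res (qn (n + m)) (il n)) := by
    intro n m
    have h1 := Le.res (hle (n + m)) (il n)
    rw [res_res (him (Nat.le_add_right n m))] at h1
    exact h1
  have hu0 : ∀ n, ∃ u ∈ V α b (il n), IsUn u fun m => QB.res (qn (n + m)) (il n) := fun n =>
    V.union (hPV n) (hPle n)
  choose u huV huU using hu0
  have huY : ∀ n, (u n).Y = ⋃ m, (qn m).Y := by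
    intro n
    rw [(huU n).Y]
    apply Subset.antisymm
    · exact iUnion_subset fun m => subset_iUnion (fun m => (qn m).Y) (n + m)
    · refine iUnion_subset fun m => ?_
      refine Subset.trans (hYm' (Nat.le_add_left m n)) ?_
      exact subset_iUnion (fun m => (QB.res (qn (n + m)) (il n)).Y) m
  have huR : ∀ n K, K ∈ (u n).R ↔ ∃ m, K ∈ (qn m).R := by
    intro n K
    rw [IsUn.ring (huU n)]
    constructor
    · rintro ⟨m, hm⟩
      exact ⟨n + m, hm⟩
    · rintro ⟨m, hm⟩
      exact ⟨m, hRm' (Nat.le_add_left m n) hm⟩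
  have huS : ∀ n l, l ∈ (u n).S ↔ (∃ m, l ∈ (qn m).S) ∧ l < il n := by
    intro n l
    rw [(huU n).S, mem_iUnion]
    constructor
    · rintro ⟨m, hm⟩
      exact ⟨⟨n + m, hm.1⟩, hm.2⟩
    · rintro ⟨⟨m, hm⟩, hl⟩
      exact ⟨m, hSm' (Nat.le_add_left m n) hm, hl⟩
  have hub : ∀ n, Basic α (u n) := fun n => V.basic (huV n)
  -- values
  have hur : ∀ n, (u n).r = (u 0).r := by
    intro n
    funext x
    by_cases hx : x ∈ ⋃ m, (qn m).Y
    · obtain ⟨m, hm⟩ := mem_iUnion.1 hx
      have h1 := ((huU n).le m).cp.rk x (hYm' (Nat.le_add_left m n) hm)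
      have h2 := ((huU 0).le (n + m)).cp.rk x (hYm' (by omega : m ≤ 0 + (n + m)) hm)
      rw [h1, h2]
      show (qn (n + m)).r x = (qn (0 + (n + m))).r x
      rw [Nat.zero_add]
    · rw [(hub n).r0 x (by rw [huY]; exact hx), (hub 0).r0 x (by rw [huY]; exact hx)]
  have huh : ∀ n k l, l ∈ (u n).S → l ∈ (u k).S → (u n).h l = (u k).h l := by
    intro n k l hn hk
    funext x
    by_cases hx : x ∈ ⋃ m, (qn m).Y
    · obtain ⟨m, hm⟩ := mem_iUnion.1 hx
      obtain ⟨⟨m', hm'⟩, hln⟩ := (huS n l).1 hn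
      have hlk := ((huS k l).1 hk).2
      have h1 := ((huU n).le (k + m + m')).h l ⟨hSm' (by omega) hm', hln⟩ x
        (hYm' (by omega) hm)
      have h2 := ((huU k).le (n + m + m')).h l ⟨hSm' (by omega) hm', hlk⟩ x
        (hYm' (by omega) hm)
      rw [h1, h2]
      show (if l < il n then (qn (n + (k + m + m'))).h l else id) x =
        (if l < il k then (qn (k + (n + m + m'))).h l else id) x
      rw [if_pos hln, if_pos hlk]
      have e : n + (k + m + m') = k + (n + m + m') := by omega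
      rw [e]
    · rw [(hub n).h1 l hn x (by rw [huY]; exact hx), (hub k).h1 l hk x (by rw [huY]; exact hx)]
  -- the union
  let q : Cnd Ω I :=
    { Y := (u 0).Y
      R := (u 0).R
      r := (u 0).r
      S := ⋃ n, (u n).S
      h := fun l => if hl : ∃ n, l ∈ (u n).S then (u hl.choose).h l else id }
  have hqh : ∀ n l, l ∈ (u n).S → q.h l = (u n).h l := by
    intro n l hl
    have hex : ∃ n, l ∈ (u n).S := ⟨n, hl⟩
    show (if hl : ∃ n, l ∈ (u n).S then (u hl.choose).h l else id) = (u n).h l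
    rw [dif_pos hex]
    exact huh _ _ _ hex.choose_spec hl
  have hqS : ∀ l, l ∈ q.S ↔ ∃ n, l ∈ (u n).S := fun l => mem_iUnion
  have hqu : ∀ n, QB.res q (il n) = u n := by
    intro n
    apply Cnd.ext
    · show (u 0).Y = (u n).Y
      rw [huY, huY]
    · show (u 0).R = (u n).R
      ext K
      rw [huR, huR]
    · exact (hur n).symm
    · show {l | l ∈ q.S ∧ l < il n} = (u n).S
      ext l
      constructor
      · rintro ⟨hl, hln⟩
        obtain ⟨k, hk⟩ := (hqS l).1 hl
        exact (huS n l).2 ⟨((huS k l).1 hk).1, hln⟩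
      · intro hl
        exact ⟨(hqS l).2 ⟨n, hl⟩, ((huS n l).1 hl).2⟩
    · funext l
      show (if l < il n then q.h l else id) = (u n).h l
      by_cases hln : l < il n
      · rw [if_pos hln]
        by_cases hl : l ∈ (u n).S
        · exact hqh n l hl
        · rw [(hub n).h0 l hl]
          have hex : ¬ ∃ n, l ∈ (u n).S := by
            rintro ⟨k, hk⟩
            exact hl ((huS n l).2 ⟨((huS k l).1 hk).1, hln⟩)
          show (if hl : ∃ n, l ∈ (u n).S then (u hl.choose).h l else id) = id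
          rw [dif_neg hex]
      · rw [if_neg hln, (hub n).h0 l]
        intro hl
        exact hln ((huS n l).1 hl).2
  have hqb : Basic α q := by
    refine ⟨(hub 0).cY, countable_iUnion fun n => (hub n).cS, (hub 0).gr, (hub 0).ra, (hub 0).r0,
      ?_, ?_, ?_⟩
    · intro l hl
      obtain ⟨n, hn⟩ := (hqS l).1 hl
      have h1 := (hub n).ce l hn
      rw [hqh n l hn]
      have e1 : q.Y = (u n).Y := by rw [← hqu n]; rfl
      have e2 : q.R = (u n).R := by rw [← hqu n]; rfl
      rw [e1, e2]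
      exact h1
    · intro l hl
      have hex : ¬ ∃ n, l ∈ (u n).S := fun h => hl ((hqS l).2 h)
      show (if hl : ∃ n, l ∈ (u n).S then (u hl.choose).h l else id) = id
      rw [dif_neg hex]
    · intro l hl x hx
      obtain ⟨n, hn⟩ := (hqS l).1 hl
      rw [hqh n l hn]
      apply (hub n).h1 l hn
      have e1 : q.Y = (u n).Y := by rw [← hqu n]; rfl
      rw [← e1]
      exact hx
  refine ⟨q, ?_, huY 0, ?_, huR 0, ?_⟩
  · rw [mem_V]
    refine ⟨hqb, ?_⟩
    intro l hl
    obtain ⟨n, hn⟩ := (hqS l).1 hl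
    have hln := ((huS n l).1 hn).2
    obtain ⟨-, h1⟩ := mem_V.1 (huV n)
    obtain ⟨-, h2, h3, h4⟩ := h1 l hn
    have e : QB.res (u n) l = QB.res q l := by
      rw [← hqu n, res_res hln.le]
    rw [e] at h3 h4
    refine ⟨lt_of_lt_of_le hln (hi n), h2, h3, ?_⟩
    rw [← h4, hqh n l hn]
    have e1 : q.Y = (u n).Y := by rw [← hqu n]; rfl
    rw [e1]
  · ext l
    rw [hqS, mem_iUnion]
    constructor
    · rintro ⟨n, hn⟩
      exact ((huS n l).1 hn).1
    · rintro ⟨n, hn⟩
      exact ⟨n, (huS n l).2 ⟨⟨n, hn⟩, V.letters (hV n) l hn⟩⟩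
  · intro n
    rw [hqu n]
    have h1 := (huU n).le 0
    have e : QB.res (qn (n + 0)) (il n) = qn n :=
      res_eq_self (V.basic (hV n)) (V.letters (hV n))
    rw [e] at h1
    exact h1

end F3

end Pool.Agent.Helper33.QB
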